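import Pool.Agent.W838.DC.Slice
import Pool.Agent.W838.DC.TabChk

/-! DC2-F2 (helper838): a simple root without predecessor keeps this property. -/

set_option autoImplicit false

namespace Pool.Agent.W688.DC

open Pool.Agent.W838.DC Pool.Agent.W838.DC.Sys Pool.Agent.W838.DC.Tab

variable {V X : Type*} [AddCommGroup V]

/-- the nonsimple roots of a slice are sums -/
theorem sum_of_three : ∀ k < 6, 3 ≤ k → ∃ i < 6, ∃ j < 6, addN i j = k ∧ addN i j ≠ 7 := by
  decide +kernel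

theorem f2_first {σ : Sys V X} {x : X} (hR : σ.RegUp x) {s : V} (hs : s ∈ σ.S)
    (hPs : σ.Psi x s) (hz : ∀ z, ¬ σ.Arr x z s) {b : V} (hPb : σ.Psi x b) (hbs : b ≠ s)
    (hn : ¬ σ.R x (b - s)) : σ.Psi (σ.r b x) s := by
  have hv := hR.v
  have sΦ := hPs.1.1
  have bΦ := hPb.1.1
  have hts := (σ.S_sub s hs).2
  rcases σ.ip_pos bΦ sΦ hPb.1.2.1 hPs.1.2.1 hbs with h | h | h
  · -- inner product `-1`
    have hadd := σ.add_mem bΦ sΦ h
    have hRsb : σ.R x (s + b) := by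
      refine ⟨by rw [add_comm]; exact hadd, ?_, ?_⟩
      · rw [map_add]; have := hPs.1.2.1; have := hPb.1.2.1; omega
      · rw [map_add, map_add]; have := hPs.1.2.2; have := hPb.1.2.2; omega
    have hlab : 0 < σ.ht (σ.lab (σ.r b x) s) := by
      rw [σ.lab_r_neg bΦ x h, map_add]
      have := hPs.1.2.2; have := hPb.1.2.2; omega
    refine ⟨⟨sΦ, hPs.1.2.1, hlab⟩, ?_⟩
    have hs' : σ.ip s b = -1 := by rw [σ.ip_symm]; exact h
    by_cases hP : σ.P (σ.r (s + b) x)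
    · -- `r (s + b) x = r b (r s (r b x))`
      have e1 : σ.r (s + b) x = σ.r b (σ.r s (σ.r b x)) := by
        have h1 := σ.r_conj_neg sΦ bΦ hs' (σ.r b x)
        -- `r s (r b (r b x)) = r (s + b) (r s (r b x))`
        rw [σ.r_r bΦ] at h1
        have h2 := σ.r_conj_neg sΦ bΦ hs' x
        -- `r s (r b x) = r (s + b) (r s x)`
        have h3 := σ.r_conj_neg bΦ sΦ h (σ.r s x)
        -- `r b (r s (r s x)) = r (b + s) (r b (r s x))`
        rw [σ.r_r sΦ] at h3
        have h4 := σ.r_conj_neg bΦ sΦ h x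
        -- `r b (r s x) = r (b + s) (r b x)`
        have h5 := σ.r_conj_pos (a := b) (b := s + b) bΦ (by rw [add_comm]; exact hadd)
          (by rw [σ.ip_add_right, h, σ.ip_self b bΦ]; norm_num) x
        -- `r b (r (s + b) x) = r s (r b x)`
        rw [add_sub_cancel_right] at h5
        rw [← h5, σ.r_r bΦ]
      rw [e1] at hP
      refine σ.P_of_R (x := σ.r s (σ.r b x)) (a := b) ⟨bΦ, hPb.1.2.1, ?_⟩ hP
      rw [σ.lab_r_neg sΦ _ hs', σ.lab_r_neg bΦ x h, σ.lab_r_self bΦ]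
      have e2 : σ.lab x b + σ.lab x s + -σ.lab x b = σ.lab x s := by abel
      rw [e2]
      exact hPs.1.2.2
    · rcases hv.neg s b hPs hPb hs' with h1 | h1
      · exact h1
      · exact absurd ⟨hPb, hPs, h, by rw [add_comm]; exact hP, h1⟩ (hz b)
  · -- orthogonal
    have hs' : σ.ip s b = 0 := by rw [σ.ip_symm]; exact h
    refine ⟨⟨sΦ, hPs.1.2.1, ?_⟩, hv.perp s b hPs hPb hs'⟩
    rw [σ.lab_r_zero bΦ x h]
    exact hPs.1.2.2
  · -- inner product `1`
    have hs' : σ.ip s b = 1 := by rw [σ.ip_symm]; exact h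
    have hsub := σ.sub_mem bΦ sΦ h
    have hpos : 0 < σ.ht (b - s) := by
      have h1 := σ.ht_ne _ hsub
      have h2 := hPb.1.2.1
      rw [map_sub, hts] at h1 ⊢
      omega
    have hN : σ.N x (b - s) := (σ.R_or_N x hsub hpos).resolve_left hn
    refine ⟨⟨sΦ, hPs.1.2.1, ?_⟩, hv.pos s b hPs hPb hs' hN⟩
    rw [σ.lab_r_pos bΦ x h, map_sub]
    have := hN.2.2
    rw [map_sub, map_sub] at this
    omega

/-- the case of a root orthogonal to the plane -/
theorem f2_perp {σ : Sys V X} {x : X} (hR : σ.RegUp x) {s : V}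
    (hPs : σ.Psi x s) {b z : V} (hPb : σ.Psi x b)
    (ha : σ.Arr (σ.r b x) z s) (h1 : σ.ip b s = 0) (h2 : σ.ip b z = 0) : σ.Arr x z s := by
  have hv := hR.v
  obtain ⟨a1, a2, a3, a4, a5⟩ := ha
  have sΦ := hPs.1.1
  have bΦ := hPb.1.1
  have zΦ := a1.1.1
  have hzs := σ.add_mem zΦ sΦ a3
  have bpos := hPb.1.2.1
  have blab := hPb.1.2.2
  have hRz : σ.R x z := by
    refine ⟨zΦ, a1.1.2.1, ?_⟩
    have := a1.1.2.2
    rwa [σ.lab_r_zero bΦ x h2] at this
  have hPz : σ.Psi x z := by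
    refine ⟨hRz, ?_⟩
    have h3 := a1.2
    rw [σ.r_comm zΦ bΦ (by rw [σ.ip_symm]; exact h2)] at h3
    refine σ.P_of_R (x := σ.r z x) (a := b) ⟨bΦ, bpos, ?_⟩ h3
    rw [σ.lab_r_zero zΦ x (by rw [σ.ip_symm]; exact h2)]
    exact blab
  refine ⟨hPz, hPs, a3, fun hP => a4 ?_, ?_⟩
  · have hPzs : σ.Psi x (z + s) := by
      refine ⟨⟨hzs, ?_, ?_⟩, hP⟩
      · rw [map_add]; have := hRz.2.1; have := hPs.1.2.1; omega
      · rw [map_add, map_add]; have := hRz.2.2; have := hPs.1.2.2; omega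
    refine hv.perp (z + s) b hPzs hPb ?_
    rw [σ.ip_add, σ.ip_symm z, σ.ip_symm s, h1, h2, add_zero]
  · have h3 := a5
    rw [σ.r_comm sΦ bΦ (by rw [σ.ip_symm]; exact h1),
      σ.r_comm zΦ bΦ (by rw [σ.ip_symm]; exact h2)] at h3
    refine σ.P_of_R (x := σ.r z (σ.r s x)) (a := b) ⟨bΦ, bpos, ?_⟩ h3
    rw [σ.lab_r_zero zΦ _ (by rw [σ.ip_symm]; exact h2),
      σ.lab_r_zero sΦ _ (by rw [σ.ip_symm]; exact h1)]
    exact blab

theorem In_of_neg {σ : Sys V X} {sl : Slice σ} {a : V} (h : sl.In (-a)) : sl.In a := by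
  have := Slice.In.neg sl h
  rwa [neg_neg] at this

/-- there is a slice containing the three roots -/
theorem f2_slice {σ : Sys V X} (h1 : S_SLICE σ) {x : X} {s b z : V} (sΦ : s ∈ σ.Φ)
    (bΦ : b ∈ σ.Φ) (zΦ : z ∈ σ.Φ) (ps : 0 < σ.ht s) (pb : 0 < σ.ht b) (pz : 0 < σ.ht z)
    (hzs : σ.ip z s = -1) (hbs : b ≠ s) (hbz : b ≠ z) (hbzs : b ≠ z + s)
    (hn : ¬ (σ.ip b s = 0 ∧ σ.ip b z = 0)) :
    ∃ sl : Slice σ, (∃ g < 24, sl.e g = x) ∧ sl.In s ∧ sl.In b ∧ sl.In z := by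
  have nbΦ := σ.neg_mem bΦ
  have hsz : σ.ip s z = -1 := by rw [σ.ip_symm]; exact hzs
  have symm := σ.ip_symm
  have hcsb := σ.ip_pos bΦ sΦ pb ps hbs
  have hcbz := σ.ip_pos bΦ zΦ pb pz hbz
  -- a general step for `ip s b' = -1`
  have key : ∀ b' ∈ σ.Φ, σ.ip s b' = -1 → b' ≠ -(z + s) →
      (σ.ip z b' = -1 ∨ σ.ip z b' = 0 ∨ σ.ip z b' = 1) →
      ∃ sl : Slice σ, (∃ g < 24, sl.e g = x) ∧ sl.In s ∧ sl.In b' ∧ sl.In z := by
    intro b' hb' hsb' hne hc
    have hadd := σ.add_mem zΦ sΦ hzs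
    rcases hc with h | h | h
    · exfalso
      apply hne
      have h2 : σ.ip b' (z + s) = -2 := by
        rw [σ.ip_add_right, symm b' z, symm b' s, h, hsb']; norm_num
      exact σ.ip_eq_neg_two hb' hadd h2
    · obtain ⟨sl, hg, i1, i2, i3⟩ := h1 z zΦ s sΦ b' hb' hzs hsb' h x
      exact ⟨sl, hg, i2, i3, i1⟩
    · obtain ⟨sl, hg, i1, i2, i3⟩ := h1 (-(z + s)) (σ.neg_mem hadd) s sΦ b' hb'
        (by rw [σ.ip_neg, σ.ip_add, hzs, σ.ip_self s sΦ]; norm_num) hsb'
        (by rw [σ.ip_neg, σ.ip_add, h, hsb']; norm_num) x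
      refine ⟨sl, hg, i2, i3, ?_⟩
      have i4 := Slice.In.sub sl (In_of_neg i1) i2 (by
        rw [σ.ip_add, hzs, σ.ip_self s sΦ]; norm_num)
      rwa [add_sub_cancel_right] at i4
  rcases hcsb with h | h | h
  · -- `ip b s = -1`
    refine key b bΦ (by rw [symm]; exact h) ?_ (by rw [symm]; exact hcbz)
    intro he
    rw [he, map_neg, map_add] at pb
    omega
  · -- `ip b s = 0`
    have hz0 : σ.ip b z ≠ 0 := fun h' => hn ⟨h, h'⟩
    rcases hcbz with h' | h' | h'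
    · obtain ⟨sl, hg, i1, i2, i3⟩ := h1 s sΦ z zΦ b bΦ hsz (by rw [symm]; exact h')
        (by rw [symm]; exact h) x
      exact ⟨sl, hg, i1, i3, i2⟩
    · exact absurd h' hz0
    · obtain ⟨sl, hg, i1, i2, i3⟩ := h1 s sΦ z zΦ (-b) nbΦ hsz
        (by rw [σ.ip_neg_right, symm z, h'])
        (by rw [σ.ip_neg_right, symm s, h, neg_zero]) x
      exact ⟨sl, hg, i1, In_of_neg i3, i2⟩
  · -- `ip b s = 1`
    obtain ⟨sl, hg, i1, i2, i3⟩ := key (-b) nbΦ (by rw [σ.ip_neg_right, symm s, h])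
      (fun he => hbzs (neg_injective he)) (by
        rw [σ.ip_neg_right, symm z]
        rcases hcbz with h' | h' | h' <;> rw [h']
        · right; right; norm_num
        · right; left; norm_num
        · left; rfl)
    exact ⟨sl, hg, i1, In_of_neg i2, i3⟩

/-- **F2** -/
theorem f2 (σ : Sys V X) (h1 : S_SLICE σ) (h2 : S_SLY σ) (h3 : S_TR σ) : S_F2 σ := by
  intro x hR s hs hPs hz b hPb hbs hn
  refine ⟨f2_first hR hs hPs hz hPb hbs hn, fun z ha => ?_⟩
  have sΦ := hPs.1.1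
  have bΦ := hPb.1.1
  have zΦ := ha.1.1.1
  have ps := hPs.1.2.1
  have pb := hPb.1.2.1
  have pz := ha.1.1.2.1
  have hts := (σ.S_sub s hs).2
  by_cases hperp : σ.ip b s = 0 ∧ σ.ip b z = 0
  · exact hz z (f2_perp hR hPs hPb ha hperp.1 hperp.2)
  have hbz : b ≠ z := by
    rintro rfl
    have h4 := ha.1.1.2.2
    rw [σ.lab_r_self bΦ, map_neg] at h4
    have := hPb.1.2.2
    omega
  have hbzs : b ≠ z + s := by
    rintro rfl
    have h4 := ha.1.1.2.2
    rw [σ.lab_r_pos bΦ x (by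
      rw [σ.ip_add, σ.ip_self z zΦ, σ.ip_symm s, ha.2.2.1]; norm_num), map_add, map_sub,
      map_add] at h4
    have := hPs.1.2.2
    omega
  obtain ⟨sl, ⟨g, hg, rfl⟩, i1, i2, i3⟩ := f2_slice h1 (x := x) sΦ bΦ zΦ ps pb pz ha.2.2.1 hbs hbz
    hbzs hperp
  obtain ⟨k, hk, rfl⟩ := i1.pos sl ps
  obtain ⟨j, hj, rfl⟩ := i2.pos sl pb
  obtain ⟨i, hi, rfl⟩ := i3.pos sl pz
  -- `s` is simple in the slice
  have hk3 : k < 3 := by
    by_contra hc
    push Not at hc
    obtain ⟨i', hi', j', hj', h4, h5⟩ := sum_of_three k hk hc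
    have h6 := sl.addρ i' hi' j' hj' h5
    rw [h4] at h6
    have h7 := (sl.mem i' hi').2
    have h8 := (sl.mem j' hj').2
    rw [← h6, map_add] at hts
    omega
  obtain ⟨Y, m, hY⟩ := h2 sl
  have hT := h3 sl Y hY.P g hg
  have hTg := h3 sl Y hY.P (T g j) (T_lt g hg j hj)
  have hPx : σ.P (sl.e g) := σ.P_of_R hPb.1 hPb.2
  have hbm : bit m g = true := hY.reg g hg ((hY.P g hg).2 hPx) hR
  have hchk : chkF2 Y g = true := by
    have h4 := chkF2_true
    unfold runYM at h4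
    rw [List.all_eq_true] at h4
    have h5 := h4 _ hY.mem
    rw [List.all_eq_true] at h5
    have h6 := h5 g (by unfold r24; interval_cases g <;> simp)
    rw [hbm] at h6
    simpa using h6
  unfold chkF2 at hchk
  rw [List.all_eq_true] at hchk
  have h4 := hchk k (by unfold simp3; interval_cases k <;> simp)
  have p1 : psi Y g k = true := (hT.2 k hk).1.2 hPs
  have p2 : (r6.any fun z => arr Y g z k) = false := by
    rw [List.any_eq_false]
    intro z' hz'
    have hz6 : z' < 6 := by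
      revert hz'
      unfold r6
      revert z'
      decide
    intro h5
    exact hz _ (((hT.2 z' hz6).2.2.2 k hk).1.1 h5)
  rw [p1, p2, Bool.not_true, Bool.false_or, Bool.false_or, List.all_eq_true] at h4
  have h5 := h4 j (by unfold r6; interval_cases j <;> simp)
  have q1 : (j == k) = false := by
    rw [beq_eq_false_iff_ne]
    rintro rfl
    exact hbs rfl
  have q2 : psi Y g j = true := (hT.2 j hj).1.2 hPb
  have q3 : (subN j k != 7 && sgn g (subN j k)) = false := by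
    rw [Bool.and_eq_false_iff]
    by_cases h7 : subN j k = 7
    · left; rw [h7]; rfl
    · right
      have h8 := subN_lt j hj k hk h7
      by_contra hc
      rw [Bool.not_eq_false] at hc
      apply hn
      rw [sl.subρ j hj k hk h7]
      exact (hT.2 _ h8).2.1.1 hc
  rw [q1, q2, q3, Bool.not_true, Bool.false_or, Bool.false_or, Bool.false_or, Bool.and_eq_true,
    List.all_eq_true] at h5
  have h6 := h5.2 i (by unfold r6; interval_cases i <;> simp)
  rw [Bool.not_eq_true'] at h6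
  have h7 : arr Y (T g j) i k = true := by
    refine ((hTg.2 i hi).2.2.2 k hk).1.2 ?_
    rw [← sl.eT g hg j hj]
    exact ha
  rw [h6] at h7
  exact Bool.false_ne_true h7

end Pool.Agent.W688.DC
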