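import Pool.Agent.W838.DC.Slice

/-! DC2-TR and DC2-SLY (helper838): translation between slices and tables. -/

set_option autoImplicit false

namespace Pool.Agent.W688.DC

open Pool.Agent.W838.DC Pool.Agent.W838.DC.Sys Pool.Agent.W838.DC.Tab

variable {V X : Type*} [AddCommGroup V]

theorem r6_all {p : ℕ → Bool} : r6.all p = true ↔ ∀ k < 6, p k = true := by
  rw [List.all_eq_true]
  constructor
  · intro h k hk
    apply h
    unfold r6
    interval_cases k <;> simp
  · intro h k hk
    apply h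
    revert k
    unfold r6
    decide

section
variable {σ : Sys V X} (sl : Slice σ) {Y : ℕ} (hP : ∀ g < 24, (bit Y g = true ↔ σ.P (sl.e g)))

theorem R_iff {g z : ℕ} (hg : g < 24) (hz : z < 6) :
    sgn g z = true ↔ σ.R (sl.e g) (sl.ρ z) := by
  constructor
  · intro h
    exact ⟨(sl.mem z hz).1, (sl.mem z hz).2, (sl.esgn g hg z hz).2 h⟩
  · intro h
    exact (sl.esgn g hg z hz).1 h.2.2

theorem N_iff {g z : ℕ} (hg : g < 24) (hz : z < 6) :
    sgn g z = false ↔ σ.N (sl.e g) (sl.ρ z) := by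
  have h1 := sl.esgn g hg z hz
  have h2 := σ.lab_ht_ne (sl.e g) (sl.mem z hz).1
  constructor
  · intro h
    refine ⟨(sl.mem z hz).1, (sl.mem z hz).2, ?_⟩
    rw [h] at h1
    have h3 : ¬ 0 < σ.ht (σ.lab (sl.e g) (sl.ρ z)) := fun h4 => by simpa using h1.1 h4
    omega
  · intro h
    have h3 := h.2.2
    by_contra hc
    have h4 := h1.2 (by simpa using hc)
    omega

include hP

theorem psi_iff {g z : ℕ} (hg : g < 24) (hz : z < 6) :
    psi Y g z = true ↔ σ.Psi (sl.e g) (sl.ρ z) := by
  unfold psi Sys.Psi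
  rw [Bool.and_eq_true, R_iff sl hg hz, sl.eT g hg z hz, hP _ (T_lt g hg z hz)]

theorem P2_iff {g z b : ℕ} (hg : g < 24) (hz : z < 6) (hb : b < 6) :
    bit Y (T (T g b) z) = true ↔ σ.P (σ.r (sl.ρ z) (σ.r (sl.ρ b) (sl.e g))) := by
  rw [sl.eT g hg b hb, sl.eT _ (T_lt g hg b hb) z hz, hP _ (T_lt _ (T_lt g hg b hb) z hz)]

theorem Padd_iff {g z b : ℕ} (hg : g < 24) (hz : z < 6) (hb : b < 6) (h : ipN z b = 0) :
    bit Y (T g (addN z b)) = true ↔ σ.P (σ.r (sl.ρ z + sl.ρ b) (sl.e g)) := by
  have h1 := addN_lt z hz b hb h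
  rw [sl.addρ z hz b hb (by omega), sl.eT g hg _ h1, hP _ (T_lt g hg _ h1)]

theorem arr_iff {g z b : ℕ} (hg : g < 24) (hz : z < 6) (hb : b < 6) :
    arr Y g z b = true ↔ σ.Arr (sl.e g) (sl.ρ z) (sl.ρ b) := by
  have hip := sl.ipρ z hz b hb
  unfold arr Sys.Arr
  simp only [Bool.and_eq_true, Bool.not_eq_true', beq_iff_eq]
  rw [psi_iff sl hP hg hz, psi_iff sl hP hg hb, P2_iff sl hP hg hz hb]
  constructor
  · rintro ⟨⟨⟨⟨h1, h2⟩, h3⟩, h4⟩, h5⟩
    refine ⟨h1, h2, by omega, ?_, h5⟩
    rw [← Padd_iff sl hP hg hz hb h3, h4]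
    simp
  · rintro ⟨h1, h2, h3, h4, h5⟩
    have h6 : ipN z b = 0 := by omega
    refine ⟨⟨⟨⟨h1, h2⟩, h6⟩, ?_⟩, h5⟩
    rw [← Padd_iff sl hP hg hz hb h6] at h4
    simpa using h4

theorem c6_iff {g z b : ℕ} (hg : g < 24) (hz : z < 6) (hb : b < 6) :
    c6 Y g z b = true ↔ σ.C6 (sl.e g) (sl.ρ z) (sl.ρ b) := by
  have hip := sl.ipρ z hz b hb
  unfold c6 Sys.C6
  simp only [Bool.and_eq_true, beq_iff_eq]
  rw [psi_iff sl hP hg hz, psi_iff sl hP hg hb]
  constructor
  · rintro ⟨⟨⟨h1, h2⟩, h3⟩, h4⟩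
    exact ⟨h1, h2, by omega, (Padd_iff sl hP hg hz hb h3).1 h4⟩
  · rintro ⟨h1, h2, h3, h4⟩
    have h6 : ipN z b = 0 := by omega
    exact ⟨⟨⟨h1, h2⟩, h6⟩, (Padd_iff sl hP hg hz hb h6).2 h4⟩

theorem dbl_iff {g z b : ℕ} (hg : g < 24) (hz : z < 6) (hb : b < 6) :
    dbl Y g z b = true ↔ σ.Dbl (sl.e g) (sl.ρ z) (sl.ρ b) := by
  have hip := sl.ipρ z hz b hb
  unfold dbl Sys.Dbl
  simp only [Bool.and_eq_true, Bool.not_eq_true', beq_iff_eq, bne_iff_ne, ne_eq]
  rw [psi_iff sl hP hg hz, psi_iff sl hP hg hb]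
  constructor
  · rintro ⟨⟨⟨⟨h1, h2⟩, h3⟩, h4⟩, h5⟩
    refine ⟨h1, h2, by omega, ?_⟩
    rw [sl.subρ b hb z hz h4]
    exact (N_iff sl hg (subN_lt b hb z hz h4)).1 h5
  · rintro ⟨h1, h2, h3, h4⟩
    have h6 : ipN z b = 2 := by omega
    rcases sub_cases z hz b hb h6 with ⟨h7, -⟩ | ⟨h7, -⟩
    · exfalso
      have h8 := sl.subρ z hz b hb (by omega)
      have h9 := (sl.mem _ h7).2
      have h10 := h4.2.1
      rw [← h8, map_sub] at h9
      rw [map_sub] at h10
      omega
    · rw [sl.subρ b hb z hz (by omega)] at h4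
      exact ⟨⟨⟨⟨h1, h2⟩, h6⟩, by omega⟩, (N_iff sl hg h7).2 h4⟩

theorem vreg_of {g : ℕ} (hg : g < 24) (hv : σ.VReg (sl.e g)) : vreg Y g = true := by
  unfold vreg
  rw [r6_all]
  intro a ha
  by_cases hpa : psi Y g a = true
  · rw [Bool.or_eq_true]
    right
    rw [r6_all]
    intro b hb
    by_cases hpb : psi Y g b = true
    · rw [Bool.or_eq_true]
      right
      by_cases hab : a = b
      · rw [hab]; simp
      · rw [Bool.or_eq_true]
        right
        have hA := (psi_iff sl hP hg ha).1 hpa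
        have hB := (psi_iff sl hP hg hb).1 hpb
        have hip := sl.ipρ a ha b hb
        have hle := ipN_le a ha b hb hab
        by_cases h1 : ipN a b = 1
        · rw [if_pos (by rw [h1]; rfl), P2_iff sl hP hg ha hb]
          exact hv.perp _ _ hA hB (by omega)
        · rw [if_neg (by simpa using h1)]
          by_cases h0 : ipN a b = 0
          · rw [if_pos (by rw [h0]; rfl), Bool.or_eq_true, P2_iff sl hP hg ha hb,
              P2_iff sl hP hg hb ha]
            exact hv.neg _ _ hA hB (by omega)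
          · rw [if_neg (by simpa using h0)]
            have h2 : ipN a b = 2 := by omega
            rcases sub_cases a ha b hb h2 with ⟨-, h7⟩ | ⟨h7, -⟩
            · rw [h7]; simp
            · rcases Bool.eq_false_or_eq_true (sgn g (subN b a)) with h8 | h8
              · rw [h8]; simp
              · rw [Bool.or_eq_true]
                right
                rw [P2_iff sl hP hg ha hb]
                refine hv.pos _ _ hA hB (by omega) ?_
                rw [sl.subρ b hb a ha (by omega)]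
                exact (N_iff sl hg h7).1 h8
    · rw [Bool.not_eq_true] at hpb
      rw [hpb]; simp
  · rw [Bool.not_eq_true] at hpa
    rw [hpa]; simp

end

/-- **TR** -/
theorem tr (σ : Sys V X) : S_TR σ := by
  intro sl Y hP g hg
  refine ⟨vreg_of sl hP hg, fun z hz => ⟨psi_iff sl hP hg hz, R_iff sl hg hz, N_iff sl hg hz,
    fun b hb => ⟨arr_iff sl hP hg hz hb, dbl_iff sl hP hg hz hb, c6_iff sl hP hg hz hb⟩⟩⟩

/-! ### SLY -/

theorem bit_eq (Y g : ℕ) : bit Y g = Y.testBit g := by
  unfold bit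
  rw [Nat.testBit_eq_decide_div_mod_eq, Nat.shiftRight_eq_div_pow]
  rfl

theorem bit_or (m g h : ℕ) : bit (m ||| (1 <<< g)) h = (bit m h || decide (g = h)) := by
  rw [bit_eq, bit_eq, Nat.testBit_or, Nat.one_shiftLeft, Nat.testBit_two_pow]

open Classical in
/-- the lower set of the region, the bits below `k` -/
noncomputable def yk (σ : Sys V X) (sl : Slice σ) : ℕ → ℕ
  | 0 => 0
  | k + 1 => yk σ sl k + if σ.P (sl.e k) then 2 ^ k else 0

section
variable {σ : Sys V X} (sl : Slice σ)

theorem yk_lt (k : ℕ) : yk σ sl k < 2 ^ k := by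
  induction k with
  | zero => simp [yk]
  | succ k ih =>
    unfold yk
    rw [pow_succ]
    split_ifs <;> omega

theorem yk_bit (k : ℕ) : ∀ g, bit (yk σ sl k) g = true ↔ g < k ∧ σ.P (sl.e g) := by
  induction k with
  | zero =>
    intro g
    rw [bit_eq]
    simp [yk]
  | succ k ih =>
    intro g
    have hlt := yk_lt sl k
    have ih' := ih g
    rw [bit_eq] at ih' ⊢
    unfold yk
    by_cases hk : σ.P (sl.e k)
    · rw [if_pos hk, add_comm]
      rcases lt_trichotomy g k with h | h | h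
      · rw [Nat.testBit_two_pow_add_gt h, ih']
        constructor
        · rintro ⟨-, h2⟩; exact ⟨by omega, h2⟩
        · rintro ⟨-, h2⟩; exact ⟨h, h2⟩
      · subst h
        rw [Nat.testBit_two_pow_add_eq, Nat.testBit_lt_two_pow hlt]
        simp [hk]
      · rw [Nat.testBit_lt_two_pow]
        · simp only [Bool.false_eq_true, false_iff, not_and]
          intro h2; omega
        · have h3 : 2 ^ (k + 1) ≤ 2 ^ g := Nat.pow_le_pow_right (by norm_num) h
          rw [pow_succ] at h3
          omega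
    · rw [if_neg hk, add_zero, ih']
      constructor
      · rintro ⟨h1, h2⟩; exact ⟨by omega, h2⟩
      · rintro ⟨h1, h2⟩
        refine ⟨?_, h2⟩
        rcases Nat.lt_succ_iff_lt_or_eq.1 h1 with h3 | h3
        · exact h3
        · exact absurd (h3 ▸ h2) hk

theorem low_bits : ∀ k < 24, ∀ i < 24, (low k).testBit i = true →
    ∃ j < 6, sgn k j = false ∧ T k j = i := by decide +kernel

theorem low_lt (k : ℕ) : low k < 2 ^ 24 := by
  unfold low
  exact Nat.mod_lt _ (by norm_num)

theorem yk_low {k : ℕ} (hk : k < 24) (hP : σ.P (sl.e k)) :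
    (yk σ sl k &&& low k) == low k := by
  rw [beq_iff_eq]
  apply Nat.eq_of_testBit_eq
  intro i
  rw [Nat.testBit_and]
  rcases Bool.eq_false_or_eq_true ((low k).testBit i) with h | h
  · rw [h, Bool.and_true]
    have hi : i < 24 := by
      by_contra hc
      push Not at hc
      rw [Nat.testBit_lt_two_pow (lt_of_lt_of_le (low_lt k)
        (Nat.pow_le_pow_right (by norm_num) hc))] at h
      exact Bool.false_ne_true h
    obtain ⟨j, hj, h1, rfl⟩ := low_bits k hk i hi h
    rw [← bit_eq, yk_bit]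
    refine ⟨down_lt k hk j hj h1, ?_⟩
    rw [← sl.eT k hk j hj]
    exact σ.P_of_N ((N_iff sl hk hj).1 h1) hP
  · rw [h, Bool.and_false]

theorem yk_gen (k : ℕ) (hk : k ≤ 24) : yk σ sl k ∈ gen k := by
  induction k with
  | zero => simp [yk, gen]
  | succ k ih =>
    have ih' := ih (by omega)
    unfold yk gen
    rw [List.mem_append]
    by_cases h : σ.P (sl.e k)
    · right
      rw [if_pos h, List.mem_map]
      exact ⟨_, List.mem_filter.2 ⟨ih', yk_low sl (by omega) h⟩, rfl⟩
    · left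
      rw [if_neg h, add_zero]
      exact ih'

/-- one step of `regMask` -/
def stp (Y acc g : ℕ) : ℕ :=
  if bit Y g && vreg Y g && r6.all (fun k => !(psi Y g k) || bit acc (T g k)) then acc ||| (1 <<< g)
  else acc

theorem stp_mono {Y acc g h : ℕ} (hb : bit acc h = true) : bit (stp Y acc g) h = true := by
  unfold stp
  split_ifs
  · rw [bit_or, hb, Bool.true_or]
  · exact hb

theorem fold_reg {Y : ℕ} (hP : ∀ g < 24, (bit Y g = true ↔ σ.P (sl.e g))) (l : List ℕ) :
    ∀ acc : ℕ, l.Pairwise (fun a b => b < a) → (∀ g ∈ l, g < 24) →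
    (∀ g < 24, g ∉ l → bit Y g = true → σ.RegUp (sl.e g) → bit acc g = true) →
    ∀ g < 24, bit Y g = true → σ.RegUp (sl.e g) → bit (l.foldl (stp Y) acc) g = true := by
  induction l with
  | nil => intro acc _ _ h g hg hY hR; exact h g hg (by simp) hY hR
  | cons x l ih =>
    intro acc hpw hlt h
    rw [List.pairwise_cons] at hpw
    rw [List.foldl_cons]
    refine ih _ hpw.2 (fun g hg => hlt g (List.mem_cons_of_mem _ hg)) ?_
    intro g hg hgl hY hR
    by_cases hgx : g = x
    · subst hgx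
      unfold stp
      rw [if_pos]
      · rw [bit_or]; simp
      · rw [Bool.and_eq_true, Bool.and_eq_true]
        refine ⟨⟨hY, vreg_of sl hP hg hR.v⟩, ?_⟩
        rw [r6_all]
        intro k hk
        by_cases hps : psi Y g k = true
        · rw [Bool.or_eq_true]
          right
          have h1 : sgn g k = true ∧ bit Y (T g k) = true := by
            unfold psi at hps
            rwa [Bool.and_eq_true] at hps
          have h2 := up_lt g hg k hk h1.1
          have hPsi := (psi_iff sl hP hg hk).1 hps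
          refine h _ (T_lt g hg k hk) ?_ h1.2 ?_
          · rw [List.mem_cons, not_or]
            refine ⟨by omega, fun hm => ?_⟩
            have := hpw.1 _ hm
            omega
          · rw [← sl.eT g hg k hk]
            exact hR.step hPsi
        · rw [Bool.not_eq_true] at hps
          rw [hps]; simp
    · exact stp_mono (h g hg (by rw [List.mem_cons, not_or]; exact ⟨hgx, hgl⟩) hY hR)

end

/-- **SLY** -/
theorem sly (σ : Sys V X) : S_SLY σ := by
  intro sl
  have hP : ∀ g < 24, (bit (yk σ sl 24) g = true ↔ σ.P (sl.e g)) := by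
    intro g hg
    rw [yk_bit]
    exact ⟨fun h => h.2, fun h => ⟨hg, h⟩⟩
  refine ⟨yk σ sl 24, regMask (yk σ sl 24), ?_, hP, ?_⟩
  · rw [← allY_eq, List.mem_map]
    exact ⟨_, yk_gen sl 24 le_rfl, rfl⟩
  · intro g hg hY hR
    refine fold_reg sl hP r24r 0 (by decide) (by decide) ?_ g hg hY hR
    intro g hg hn
    exfalso
    apply hn
    unfold r24r
    interval_cases g <;> simp

end Pool.Agent.W688.DC
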